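import Pool.Agent.H861Z.Prod.Defs

set_option autoImplicit false

open scoped TensorProduct IntermediateField Polynomial
open Polynomial

namespace Pool.Agent.H861Z.Prod

section Dom

variable {k : Type} [Field k] [IsAlgClosed k]

lemma exists_point {A : Type} [CommRing A] [IsDomain A] [Algebra k A]
    [Algebra.FiniteType k A] {c : A} (hc : c ≠ 0) : ∃ φ : A →ₐ[k] k, φ c ≠ 0 := by
  let D := Localization.Away c
  have hnt : Nontrivial D := by
    have : IsDomain D := IsLocalization.isDomain_localization
      (powers_le_nonZeroDivisors_of_noZeroDivisors hc)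
    infer_instance
  have hftD : Algebra.FiniteType k D := by
    have h1 : Algebra.FiniteType A D :=
      IsLocalization.finiteType_of_monoid_fg (Submonoid.powers c) D
    exact Algebra.FiniteType.trans inferInstance h1
  obtain ⟨M, hM⟩ := Ideal.exists_maximal D
  let _ : Field (D ⧸ M) := Ideal.Quotient.field M
  have hfin : Module.Finite k (D ⧸ M) := finite_of_finite_type_of_isJacobsonRing k (D ⧸ M)
  have hbij : Function.Bijective (algebraMap k (D ⧸ M)) :=
    IsAlgClosed.algebraMap_bijective_of_isIntegral
  let e : k ≃ₐ[k] (D ⧸ M) := AlgEquiv.ofBijective (Algebra.ofId k (D ⧸ M)) hbij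
  let φ : A →ₐ[k] k := (e.symm : (D ⧸ M) →ₐ[k] k).comp
    ((Ideal.Quotient.mkₐ k M).comp (IsScalarTower.toAlgHom k A D))
  refine ⟨φ, ?_⟩
  have hu : IsUnit (algebraMap A D c) :=
    IsLocalization.map_units D (⟨c, Submonoid.mem_powers c⟩ : Submonoid.powers c)
  have h1 : IsUnit (φ c) := hu.map ((e.symm : (D ⧸ M) →ₐ[k] k).comp (Ideal.Quotient.mkₐ k M))
  exact h1.ne_zero

theorem isDomain_tensor_ft {A A' : Type} [CommRing A] [IsDomain A] [Algebra k A]
    [Algebra.FiniteType k A] [CommRing A'] [IsDomain A'] [Algebra k A'] :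
    IsDomain (A ⊗[k] A') := by
  classical
  let b := Module.Basis.ofVectorSpace k A'
  let bA := Algebra.TensorProduct.basis A b
  have hnt : Nontrivial (A ⊗[k] A') := by
    obtain ⟨φ, -⟩ := exists_point (k := k) (one_ne_zero (α := A))
    let e : A ⊗[k] A' →ₐ[k] A' := Algebra.TensorProduct.lift ((Algebra.ofId k A').comp φ)
      (AlgHom.id k A') (fun _ _ => Commute.all _ _)
    exact e.toRingHom.domain_nontrivial
  have hnz : NoZeroDivisors (A ⊗[k] A') := by
    constructor
    intro x y hxy
    by_contra hcon
    push Not at hcon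
    obtain ⟨hx, hy⟩ := hcon
    obtain ⟨i, hi⟩ : ∃ i, bA.repr x i ≠ 0 := by
      by_contra h
      push Not at h
      apply hx
      apply bA.repr.injective
      rw [map_zero]
      ext i
      exact h i
    obtain ⟨l, hl⟩ : ∃ i, bA.repr y i ≠ 0 := by
      by_contra h
      push Not at h
      apply hy
      apply bA.repr.injective
      rw [map_zero]
      ext i
      exact h i
    obtain ⟨φ, hφ⟩ := exists_point (k := k) (mul_ne_zero hi hl)
    rw [map_mul] at hφ
    let e : A ⊗[k] A' →ₐ[k] A' := Algebra.TensorProduct.lift ((Algebra.ofId k A').comp φ)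
      (AlgHom.id k A') (fun _ _ => Commute.all _ _)
    have he : ∀ z i, b.repr (e z) i = φ (bA.repr z i) := by
      intro z i
      induction z using TensorProduct.induction_on with
      | zero => simp
      | tmul a a' =>
        rw [Algebra.TensorProduct.basis_repr_tmul]
        have h1 : e (a ⊗ₜ a') = φ a • a' := by
          rw [Algebra.TensorProduct.lift_tmul, Algebra.smul_def]
          rfl
        rw [h1, map_smul, Finsupp.smul_apply, Finsupp.smul_apply, Finsupp.mapRange_apply,
          smul_eq_mul, smul_eq_mul, map_mul, AlgHom.commutes]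
        rfl
      | add z z' hz hz' =>
        rw [map_add, map_add, map_add, Finsupp.add_apply, Finsupp.add_apply, map_add, hz, hz']
    have h0 : e x * e y = 0 := by rw [← map_mul, hxy, map_zero]
    rcases mul_eq_zero.1 h0 with h | h
    · have := he x i
      rw [h] at this
      simp only [map_zero, Finsupp.coe_zero, Pi.zero_apply] at this
      exact hφ (by rw [← this, zero_mul])
    · have := he y l
      rw [h] at this
      simp only [map_zero, Finsupp.coe_zero, Pi.zero_apply] at this
      exact hφ (by rw [← this, mul_zero])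
  exact NoZeroDivisors.to_isDomain _

theorem isDomain_tensor {A A' : Type} [Field A] [Algebra k A] [Field A'] [Algebra k A'] :
    IsDomain (A ⊗[k] A') := by
  classical
  have hnt : Nontrivial (A ⊗[k] A') := inferInstance
  have hex : ∀ z : A ⊗[k] A', ∃ s : Finset A, ∀ B : Subalgebra k A, (s : Set A) ⊆ B →
      ∃ w : B ⊗[k] A', Algebra.TensorProduct.map B.val (AlgHom.id k A') w = z := by
    intro z
    induction z using TensorProduct.induction_on with
    | zero => exact ⟨∅, fun B _ => ⟨0, map_zero _⟩⟩
    | tmul a a' =>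
      refine ⟨{a}, fun B hB => ⟨(⟨a, hB (by simp)⟩ : B) ⊗ₜ a', ?_⟩⟩
      simp
    | add z z' hz hz' =>
      obtain ⟨s, hs⟩ := hz
      obtain ⟨s', hs'⟩ := hz'
      refine ⟨s ∪ s', fun B hB => ?_⟩
      obtain ⟨w, hw⟩ := hs B (fun t ht => hB (by simp; exact Or.inl ht))
      obtain ⟨w', hw'⟩ := hs' B (fun t ht => hB (by simp; exact Or.inr ht))
      exact ⟨w + w', by rw [map_add, hw, hw']⟩
  have hnz : NoZeroDivisors (A ⊗[k] A') := by
    constructor
    intro x y hxy
    obtain ⟨s, hs⟩ := hex x
    obtain ⟨s', hs'⟩ := hex y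
    let B : Subalgebra k A := Algebra.adjoin k ((s ∪ s' : Finset A) : Set A)
    have hB : Algebra.FiniteType k B :=
      (Subalgebra.fg_iff_finiteType B).1 (Subalgebra.fg_adjoin_finset _)
    have hd : IsDomain (B ⊗[k] A') := isDomain_tensor_ft
    obtain ⟨w, hw⟩ := hs B (fun t ht => Algebra.subset_adjoin (by simp; exact Or.inl ht))
    obtain ⟨w', hw'⟩ := hs' B (fun t ht => Algebra.subset_adjoin (by simp; exact Or.inr ht))
    have hinj : Function.Injective (Algebra.TensorProduct.map B.val (AlgHom.id k A')) := by
      have := Module.Flat.rTensor_preserves_injective_linearMap (M := A') B.val.toLinearMap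
        Subtype.val_injective
      exact this
    have : w * w' = 0 := hinj (by rw [map_mul, hw, hw', hxy, map_zero])
    rcases mul_eq_zero.1 this with h | h
    · left; rw [← hw, h, map_zero]
    · right; rw [← hw', h, map_zero]
  exact NoZeroDivisors.to_isDomain _

end Dom

/-- A polynomial with a simple root is not a square in the rational function field. -/
lemma not_sq {E K : Type} [Field E] [Field K] [Algebra E K] {x : K} (hx : Transcendental E x)
    {P : E[X]} {r : E} (hP : P.rootMultiplicity r = 1) {m : K} (hm : m ∈ E⟮x⟯) :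
    m ^ 2 ≠ aeval x P := by
  intro h
  obtain ⟨A, B, hAB⟩ := (IntermediateField.mem_adjoin_simple_iff E m).1 hm
  have hinj : Function.Injective (aeval x : E[X] →ₐ[E] K) := transcendental_iff_injective.1 hx
  have hP0 : P ≠ 0 := by
    rintro rfl
    simp at hP
  by_cases hB : B = 0
  · rw [hB, map_zero, div_zero] at hAB
    rw [hAB] at h
    apply hP0
    apply hinj
    rw [← h]; simp
  have hB' : aeval x B ≠ 0 := fun h' => hB (hinj (by rw [h', map_zero]))
  have h1 : A * A = P * (B * B) := by
    apply hinj
    rw [map_mul, map_mul, map_mul, ← h, hAB]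
    field_simp
  have hne : P * (B * B) ≠ 0 := mul_ne_zero hP0 (mul_ne_zero hB hB)
  have h2 := congrArg (rootMultiplicity r) h1
  rw [rootMultiplicity_mul (h1 ▸ hne), rootMultiplicity_mul hne,
    rootMultiplicity_mul (mul_ne_zero hB hB), hP] at h2
  omega

/-- Quadratic extensions generated by a square root. -/
lemma quad {F K : Type} [Field F] [Field K] [Algebra F K] {a : K} {c : F}
    (ha : a ^ 2 = algebraMap F K c) (hn : a ∉ (⊥ : IntermediateField F K)) :
    Module.finrank F F⟮a⟯ = 2 ∧
      ∀ w ∈ F⟮a⟯, ∃ p q : F, w = algebraMap F K p + algebraMap F K q * a := by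
  have hm : (X ^ 2 - C c : F[X]).Monic := monic_X_pow_sub_C c (by norm_num)
  have hev : aeval a (X ^ 2 - C c : F[X]) = 0 := by simp [ha]
  have hint : IsIntegral F a := ⟨_, hm, by simpa [aeval_def] using hev⟩
  constructor
  · rw [IntermediateField.adjoin.finrank hint]
    have h1 : (minpoly F a).degree ≤ (X ^ 2 - C c : F[X]).degree := minpoly.min F a hm hev
    have h2 : (minpoly F a).natDegree ≤ 2 := by
      have := natDegree_le_natDegree h1
      rwa [natDegree_X_pow_sub_C] at this
    have h3 : 0 < (minpoly F a).natDegree := minpoly.natDegree_pos hint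
    have h4 : (minpoly F a).natDegree ≠ 1 := by
      intro h
      apply hn
      rw [minpoly.natDegree_eq_one_iff] at h
      exact IntermediateField.mem_bot.2 h
    omega
  · intro w hw
    have hw' : w ∈ (F⟮a⟯).toSubalgebra := hw
    rw [IntermediateField.adjoin_simple_toSubalgebra_of_isAlgebraic hint.isAlgebraic] at hw'
    clear hw
    induction hw' using Algebra.adjoin_induction with
    | mem z hz =>
      rw [Set.mem_singleton_iff] at hz
      exact ⟨0, 1, by simp [hz]⟩
    | algebraMap r => exact ⟨r, 0, by simp⟩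
    | add z z' _ _ hz hz' =>
      obtain ⟨p, q, rfl⟩ := hz
      obtain ⟨p', q', rfl⟩ := hz'
      exact ⟨p + p', q + q', by simp only [map_add]; ring⟩
    | mul z z' _ _ hz hz' =>
      obtain ⟨p, q, rfl⟩ := hz
      obtain ⟨p', q', rfl⟩ := hz'
      refine ⟨p * p' + q * q' * c, p * q' + q * p', ?_⟩
      simp only [map_add, map_mul, ← ha]
      ring

/-- a simple root of a squarefree complex polynomial -/
lemma rootMult_one {f : ℂ[X]} (hf : Squarefree f) {e : ℂ} (he : f.IsRoot e) :
    f.rootMultiplicity e = 1 := by
  have hf0 : f ≠ 0 := hf.ne_zero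
  have h1 : 0 < f.rootMultiplicity e := (rootMultiplicity_pos hf0).2 he
  have h2 : ¬ 1 < f.rootMultiplicity e := by
    intro h
    have h3 : (X - C e) ^ 2 ∣ f := (pow_dvd_pow _ h).trans (pow_rootMultiplicity_dvd f e)
    rw [pow_two] at h3
    exact not_isUnit_X_sub_C e (hf _ h3)
  omega

end Pool.Agent.H861Z.Prod
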