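import Mathlib

/-!
Curves, their products and dominant rational maps to the projective plane, through function fields
over the complex numbers.
-/

set_option autoImplicit false

open scoped TensorProduct IntermediateField Polynomial

namespace Pool.Agent.H861Z.Prod

/-- The function field `ℂ(t₀, t₁)` of the projective plane (and of `ℙ¹ × ℙ¹`). -/
abbrev PlaneField : Type := FractionRing (MvPolynomial (Fin 2) ℂ)

/-- The coordinate functions `t₀, t₁` in `ℂ(t₀, t₁)`. -/
noncomputable def coord (i : Fin 2) : PlaneField :=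
  algebraMap (MvPolynomial (Fin 2) ℂ) PlaneField (MvPolynomial.X i)

/-- `K` is the function field `ℂ(x, y)` of the hyperelliptic curve `y ^ 2 = f(x)` of genus `g`:
`f` is squarefree of degree `2 g + 1` or `2 g + 2`. -/
def IsHyperellipticField (g : ℕ) (K : Type) [Field K] [Algebra ℂ K] : Prop :=
  ∃ (f : ℂ[X]) (x y : K), Squarefree f ∧ (f.natDegree = 2 * g + 1 ∨ f.natDegree = 2 * g + 2) ∧
    Transcendental ℂ x ∧ y ^ 2 = Polynomial.aeval x f ∧ ℂ⟮x, y⟯ = ⊤

/-- The gonality of the curve with function field `K`: the least degree `[K : ℂ(h)]` of a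
non-constant rational function `h`. -/
noncomputable def gonality (K : Type) [Field K] [Algebra ℂ K] : ℕ :=
  sInf {d : ℕ | ∃ h : K, Transcendental ℂ h ∧ FiniteDimensional ℂ⟮h⟯ K ∧
    Module.finrank ℂ⟮h⟯ K = d}

/-- The function field of the product of the curves with function fields `K₁` and `K₂`. -/
abbrev ProductField (K₁ K₂ : Type) [Field K₁] [Algebra ℂ K₁] [Field K₂] [Algebra ℂ K₂] : Type :=
  FractionRing (K₁ ⊗[ℂ] K₂)

section

variable {K₁ K₂ : Type} [Field K₁] [Algebra ℂ K₁] [Field K₂] [Algebra ℂ K₂]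

/-- The degree `[ℂ(X) : φ^* ℂ(ℙ²)]` of the dominant rational map `X = C₁ × C₂ ⇢ ℙ²` with
pull-back `φ` on rational functions. -/
noncomputable def mapDegree (φ : PlaneField →ₐ[ℂ] ProductField K₁ K₂) : ℕ :=
  Module.finrank φ.range (ProductField K₁ K₂)

/-- `ψ` is the pull-back along a product `h₁ × h₂` of rational functions `hᵢ` on `Cᵢ`. -/
def IsProductMap (ψ : PlaneField →ₐ[ℂ] ProductField K₁ K₂) : Prop :=
  ∃ (h₁ : K₁) (h₂ : K₂),
    ψ (coord 0) = algebraMap (K₁ ⊗[ℂ] K₂) (ProductField K₁ K₂) (h₁ ⊗ₜ[ℂ] 1) ∧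
    ψ (coord 1) = algebraMap (K₁ ⊗[ℂ] K₂) (ProductField K₁ K₂) (1 ⊗ₜ[ℂ] h₂)

/-- Birational equivalence of dominant rational maps `X ⇢ ℙ²`: there are birational self-maps of
`X` and of `ℙ²`, with pull-backs `a` and `b`, that make the square commute. -/
def BirationallyEquivalent (φ ψ : PlaneField →ₐ[ℂ] ProductField K₁ K₂) : Prop :=
  ∃ (a : ProductField K₁ K₂ ≃ₐ[ℂ] ProductField K₁ K₂) (b : PlaneField ≃ₐ[ℂ] PlaneField),
    ∀ r : PlaneField, φ (b r) = a (ψ r)

end

end Pool.Agent.H861Z.Prod
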