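import Pool.Agent.H861Z.Prod.Basic

set_option autoImplicit false

open scoped TensorProduct IntermediateField Polynomial
open Polynomial

namespace Pool.Agent.H861Z.Prod

lemma dvd_wronskian_left {p r q : ℂ[X]} (h : q ^ 2 ∣ p) : q ∣ wronskian p r := by
  obtain ⟨s, rfl⟩ := h
  unfold wronskian
  refine dvd_sub (Dvd.dvd.mul_right (Dvd.dvd.mul_right (dvd_pow_self q (by norm_num)) _) _) ?_
  refine Dvd.dvd.mul_right ?_ _
  rw [derivative_mul, derivative_sq]
  refine dvd_add (Dvd.dvd.mul_right ?_ _) (Dvd.dvd.mul_right (dvd_pow_self q (by norm_num)) _)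
  exact Dvd.dvd.mul_right (Dvd.intro_left _ rfl) _

lemma wronskian_pencil (a b : ℂ[X]) (e e' : ℂ) :
    wronskian (a - C e * b) (a - C e' * b) = C (e - e') * wronskian a b := by
  unfold wronskian
  simp only [derivative_mul, derivative_C, zero_mul, zero_add, map_sub]
  ring

lemma wronskian_pencil' (a b : ℂ[X]) (e : ℂ) :
    wronskian (a - C e * b) b = wronskian a b := by
  unfold wronskian
  simp only [derivative_sub, derivative_mul, derivative_C, zero_mul, zero_add]
  ring

lemma coprime_pencil_b {a b : ℂ[X]} (h : IsCoprime a b) (e : ℂ) : IsCoprime (a - C e * b) b := by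
  have := h.add_mul_right_left (-C e)
  rwa [show a + -C e * b = a - C e * b by ring] at this

lemma coprime_pencil {a b : ℂ[X]} (h : IsCoprime a b) {e e' : ℂ} (hne : e ≠ e') :
    IsCoprime (a - C e * b) (a - C e' * b) := by
  have h1 := coprime_pencil_b h e
  have hu : IsUnit (C (e - e') : ℂ[X]) := isUnit_C.2 (sub_ne_zero.2 hne).isUnit
  have h2 : IsCoprime (a - C e * b) (C (e - e') * b) :=
    (isCoprime_mul_unit_left_right hu _ _).2 h1
  have h3 := h2.add_mul_left_right 1
  rwa [show C (e - e') * b + (a - C e * b) * 1 = a - C e' * b by rw [map_sub]; ring] at h3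

/-- Four members of a pencil of coprime polynomials are squares only if the pencil is constant. -/
lemma four_squares {a b : ℂ[X]} (h : IsCoprime a b) (e : Fin 4 → ℂ) (he : Function.Injective e)
    (q : Fin 4 → ℂ[X]) (hq : ∀ i, Associated (q i ^ 2) (a - C (e i) * b)) :
    wronskian a b = 0 := by
  by_contra hW
  have hdvd : ∀ i, q i ∣ wronskian a b := fun i => by
    rw [← wronskian_pencil' a b (e i)]
    exact dvd_wronskian_left (hq i).dvd
  have hcop : Pairwise (Function.onFun IsCoprime q) := by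
    intro i j hij
    have h1 := coprime_pencil h (he.ne hij)
    have hi : q i ∣ a - C (e i) * b := (dvd_pow_self _ (by norm_num)).trans (hq i).dvd
    have hj : q j ∣ a - C (e j) * b := (dvd_pow_self _ (by norm_num)).trans (hq j).dvd
    exact (h1.of_isCoprime_of_dvd_left hi).of_isCoprime_of_dvd_right hj
  have hprod : ∏ i, q i ∣ wronskian a b :=
    Finset.prod_dvd_of_coprime (fun i _ j _ hij => hcop hij) (fun i _ => hdvd i)
  have hq0 : ∀ i, q i ≠ 0 := fun i hi => hW (by simpa [hi] using hdvd i)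
  have hdeg : ∑ i, (q i).natDegree ≤ (wronskian a b).natDegree := by
    rw [← natDegree_prod _ _ (fun i _ => hq0 i)]
    exact natDegree_le_of_dvd hprod hW
  have hp : ∀ i, (a - C (e i) * b).natDegree = 2 * (q i).natDegree := fun i => by
    rw [← natDegree_pow]
    exact (natDegree_eq_of_degree_eq (degree_eq_degree_of_associated (hq i))).symm
  have hlt : ∀ i j, i ≠ j → (wronskian a b).natDegree <
      2 * (q i).natDegree + 2 * (q j).natDegree := by
    intro i j hij
    have hne : e i - e j ≠ 0 := sub_ne_zero.2 (he.ne hij)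
    have h1 : wronskian (a - C (e i) * b) (a - C (e j) * b) ≠ 0 := by
      rw [wronskian_pencil]
      exact mul_ne_zero (C_ne_zero.2 hne) hW
    have h2 := natDegree_wronskian_lt_add h1
    rw [wronskian_pencil, natDegree_C_mul hne, hp, hp] at h2
    exact h2
  have h01 := hlt 0 1 (by decide)
  have h23 := hlt 2 3 (by decide)
  rw [Fin.sum_univ_four] at hdeg
  omega

/-- The curve `y ^ 2 = f(x)`, `f` squarefree of degree at least four, is not rational. -/
lemma not_rational {K : Type} [Field K] [Algebra ℂ K] {f : ℂ[X]} (hf : Squarefree f)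
    (hd : 4 ≤ f.natDegree) {x y t : K} (hx : Transcendental ℂ x) (ht : Transcendental ℂ t)
    (hy : y ^ 2 = aeval x f) (hxt : x ∈ ℂ⟮t⟯) (hyt : y ∈ ℂ⟮t⟯) : False := by
  classical
  have hinj : Function.Injective (aeval t : ℂ[X] →ₐ[ℂ] K) := transcendental_iff_injective.1 ht
  have hf0 : f ≠ 0 := hf.ne_zero
  have hx0 : x ≠ 0 := fun h => hx (h ▸ isAlgebraic_zero)
  obtain ⟨r, s, hrs⟩ := (IntermediateField.mem_adjoin_simple_iff ℂ x).1 hxt
  obtain ⟨c, d, hcd⟩ := (IntermediateField.mem_adjoin_simple_iff ℂ y).1 hyt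
  have hs0 : s ≠ 0 := by
    rintro rfl
    exact hx0 (by simpa using hrs)
  -- coprime representation
  obtain ⟨a, b, hab, hb0, hxab⟩ : ∃ a b : ℂ[X], IsCoprime a b ∧ b ≠ 0 ∧
      x = aeval t a / aeval t b := by
    have hg : GCDMonoid.gcd r s ≠ 0 := gcd_ne_zero_of_right hs0
    refine ⟨r / GCDMonoid.gcd r s, s / GCDMonoid.gcd r s, isCoprime_div_gcd_div_gcd hs0,
      right_div_gcd_ne_zero hs0, ?_⟩
    have h1 : r = GCDMonoid.gcd r s * (r / GCDMonoid.gcd r s) :=
      (EuclideanDomain.mul_div_cancel' hg (gcd_dvd_left r s)).symm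
    have h2 : s = GCDMonoid.gcd r s * (s / GCDMonoid.gcd r s) :=
      (EuclideanDomain.mul_div_cancel' hg (gcd_dvd_right r s)).symm
    have hg' : aeval t (GCDMonoid.gcd r s) ≠ 0 := fun h => hg (hinj (by rw [h, map_zero]))
    rw [hrs]
    generalize GCDMonoid.gcd r s = G at *
    generalize r / G = r' at *
    generalize s / G = s' at *
    rw [h1, h2, map_mul, map_mul, mul_div_mul_left _ _ hg']
  have hb' : aeval t b ≠ 0 := fun h => hb0 (hinj (by rw [h, map_zero]))
  -- the roots
  have hsplit : f.Splits := IsAlgClosed.splits f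
  have hnodup : f.roots.Nodup := nodup_roots (PerfectField.separable_iff_squarefree.2 hf)
  have hcard : f.roots.card = f.natDegree := splits_iff_card_roots.1 hsplit
  set R : Finset ℂ := f.roots.toFinset with hR
  have hRcard : R.card = f.natDegree := by
    rw [hR, Multiset.toFinset_card_of_nodup hnodup, hcard]
  have hfac : f = C f.leadingCoeff * ∏ e ∈ R, (X - C e) := by
    conv_lhs => rw [hsplit.eq_prod_roots]
    congr 1
    rw [hR, Finset.prod, Multiset.toFinset_val, hnodup.dedup]
  set n := f.natDegree with hn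
  set F : ℂ[X] := C f.leadingCoeff * ∏ e ∈ R, (a - C e * b) with hF
  have hFx : aeval t F = aeval t b ^ n * aeval x f := by
    conv_rhs => rw [hfac]
    rw [hF, map_mul, map_mul, map_prod, map_prod, aeval_C, aeval_C, ← hRcard,
      mul_left_comm, ← Finset.prod_const, ← Finset.prod_mul_distrib]
    congr 1
    refine Finset.prod_congr rfl fun e _ => ?_
    simp only [map_sub, map_mul, aeval_C, aeval_X, hxab]
    field_simp
  have hd0 : d ≠ 0 := by
    rintro rfl
    have hy0 : y = 0 := by simpa using hcd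
    rw [hy0] at hy
    have : Function.Injective (aeval x : ℂ[X] →ₐ[ℂ] K) := transcendental_iff_injective.1 hx
    exact hf0 (this (by rw [← hy]; simp))
  have hd' : aeval t d ≠ 0 := fun h => hd0 (hinj (by rw [h, map_zero]))
  have hpoly : (c * b ^ n) ^ 2 = d ^ 2 * (b ^ n * F) := by
    apply hinj
    simp only [map_pow, map_mul, hFx, ← hy, hcd]
    field_simp
  have hdvd : d ∣ c * b ^ n := by
    have : d ^ 2 ∣ (c * b ^ n) ^ 2 := ⟨_, hpoly⟩
    exact (IsIntegrallyClosed.pow_dvd_pow_iff (by norm_num)).1 this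
  obtain ⟨w, hw⟩ := hdvd
  have hw2 : b ^ n * F = w ^ 2 := by
    rw [hw, mul_pow] at hpoly
    exact (mul_left_cancel₀ (pow_ne_zero 2 hd0) hpoly).symm
  have hsq : ∀ e ∈ R, ∃ q : ℂ[X], Associated (q ^ 2) (a - C e * b) := by
    intro e he
    have h1 : (a - C e * b) * (b ^ n * (C f.leadingCoeff * ∏ e' ∈ R.erase e, (a - C e' * b)))
        = w ^ 2 := by
      rw [← hw2, hF, ← Finset.mul_prod_erase R _ he]
      ring
    refine exists_associated_pow_of_mul_eq_pow' ?_ h1
    refine IsCoprime.mul_right (coprime_pencil_b hab e).pow_right (IsCoprime.mul_right ?_ ?_)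
    · have hu : IsUnit (C f.leadingCoeff : ℂ[X]) :=
        isUnit_C.2 (leadingCoeff_ne_zero.2 hf0).isUnit
      have := (isCoprime_mul_unit_left_right hu (a - C e * b) 1).2 isCoprime_one_right
      simpa using this
    · refine IsCoprime.prod_right fun e' he' => coprime_pencil hab ?_
      exact (Finset.ne_of_mem_erase he').symm
  obtain ⟨e, he, heR⟩ : ∃ e : Fin 4 → ℂ, Function.Injective e ∧ ∀ i, e i ∈ R := by
    have h4 : Fintype.card (Fin 4) ≤ R.card := by simpa [hRcard] using hd
    obtain ⟨e, he⟩ := Function.Embedding.exists_of_card_le_finset h4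
    exact ⟨e, e.injective, fun i => he ⟨i, rfl⟩⟩
  choose q hq using fun i => hsq (e i) (heR i)
  have hW := four_squares hab e he q hq
  obtain ⟨ha', hb''⟩ := hab.wronskian_eq_zero_iff.1 hW
  have h1 := eq_C_of_derivative_eq_zero ha'
  have h2 := eq_C_of_derivative_eq_zero hb''
  apply hx
  rw [hxab, h1, h2, aeval_C, aeval_C, ← map_div₀]
  exact isAlgebraic_algebraMap _

lemma exists_root {f : ℂ[X]} (hd : 1 ≤ f.natDegree) : ∃ e, f.IsRoot e :=
  IsAlgClosed.exists_root f (by
    intro h
    have := natDegree_eq_zero_iff_degree_le_zero.2 h.le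
    omega)

lemma adjoin_y_top {K : Type} [Field K] [Algebra ℂ K] {x y : K} (h : ℂ⟮x, y⟯ = ⊤) :
    (ℂ⟮x⟯)⟮y⟯ = ⊤ := by
  have := IntermediateField.adjoin_simple_adjoin_simple ℂ x y
  rw [h] at this
  rw [eq_top_iff]
  intro z _
  have hz : z ∈ (⊤ : IntermediateField ℂ K) := trivial
  rw [← this] at hz
  exact hz

lemma y_not_mem {K : Type} [Field K] [Algebra ℂ K] {f : ℂ[X]} (hf : Squarefree f)
    (hd : 1 ≤ f.natDegree) {x y : K} (hx : Transcendental ℂ x) (hy : y ^ 2 = aeval x f) :
    y ∉ ℂ⟮x⟯ := by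
  obtain ⟨e, he⟩ := exists_root hd
  exact fun h => not_sq hx (rootMult_one hf he) h hy

lemma finrank_x {K : Type} [Field K] [Algebra ℂ K] {f : ℂ[X]} (hf : Squarefree f)
    (hd : 1 ≤ f.natDegree) {x y : K} (hx : Transcendental ℂ x) (hy : y ^ 2 = aeval x f)
    (h : ℂ⟮x, y⟯ = ⊤) : Module.finrank ℂ⟮x⟯ K = 2 := by
  have hmem : aeval x f ∈ ℂ⟮x⟯ :=
    (IntermediateField.mem_adjoin_simple_iff ℂ _).2 ⟨f, 1, by simp⟩
  have h1 := (quad (F := ℂ⟮x⟯) (a := y) (c := ⟨_, hmem⟩) hy (by
    intro h'
    obtain ⟨z, hz⟩ := IntermediateField.mem_bot.1 h'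
    exact y_not_mem hf hd hx hy (hz ▸ z.2))).1
  rw [adjoin_y_top h] at h1
  rw [← h1]
  exact (IntermediateField.finrank_top').symm

lemma ne_top_of_hyper {K : Type} [Field K] [Algebra ℂ K] {g : ℕ} (hg : 2 ≤ g)
    (hK : IsHyperellipticField g K) {t : K} (ht : Transcendental ℂ t) : ℂ⟮t⟯ ≠ ⊤ := by
  obtain ⟨f, x, y, hf, hd, hx, hy, -⟩ := hK
  intro h
  exact not_rational hf (by omega) hx ht hy (h ▸ trivial) (h ▸ trivial)

theorem gonality_eq_two {K : Type} [Field K] [Algebra ℂ K] {g : ℕ} (hg : 2 ≤ g)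
    (hK : IsHyperellipticField g K) : gonality K = 2 := by
  have hne := fun t ht => ne_top_of_hyper hg hK (t := t) ht
  obtain ⟨f, x, y, hf, hd, hx, hy, htop⟩ := hK
  have h2 := finrank_x hf (by omega) hx hy htop
  unfold gonality
  apply le_antisymm
  · apply Nat.sInf_le
    exact ⟨x, hx, Module.finite_of_finrank_pos (by omega), h2⟩
  · apply le_csInf
    · exact ⟨2, x, hx, Module.finite_of_finrank_pos (by omega), h2⟩
    · rintro d ⟨t, ht, hfin, rfl⟩
      have h0 : 0 < Module.finrank ℂ⟮t⟯ K := Module.finrank_pos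
      have h1 : Module.finrank ℂ⟮t⟯ K ≠ 1 := by
        intro h
        exact hne t ht (IntermediateField.finrank_eq_one_iff_eq_top.1 h)
      omega

end Pool.Agent.H861Z.Prod
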