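import Pool.Agent.H861Z.Prod.Product

set_option autoImplicit false

open scoped TensorProduct IntermediateField Polynomial
open Polynomial

namespace Pool.Agent.H861Z.Prod

section

variable {K₁ K₂ K : Type} [Field K₁] [Algebra ℂ K₁] [Field K₂] [Algebra ℂ K₂]
  [Field K] [Algebra ℂ K]

lemma transc_over (μ : K₁ ⊗[ℂ] K₂ →ₐ[ℂ] K) (hμ : Function.Injective μ) [Algebra K₂ K]
    (halg : ∀ z, algebraMap K₂ K z = μ (1 ⊗ₜ z)) {x : K₁} (hx : Transcendental ℂ x) :
    Transcendental K₂ (μ (x ⊗ₜ 1)) := by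
  classical
  rw [transcendental_iff]
  intro P hP
  -- compare coordinates along a basis of K₂
  have h0 : (∑ m ∈ Finset.range (P.natDegree + 1), (x ^ m) ⊗ₜ[ℂ] (P.coeff m) : K₁ ⊗[ℂ] K₂) = 0 := by
    apply hμ
    rw [map_zero, ← hP, aeval_eq_sum_range, map_sum]
    refine Finset.sum_congr rfl fun m _ => ?_
    rw [Algebra.smul_def, halg, ← map_pow, ← map_mul]
    simp [Algebra.TensorProduct.tmul_pow]
  ext m
  rw [coeff_zero, ← Module.forall_dual_apply_eq_zero_iff ℂ]
  intro l
  let Λ : K₁ ⊗[ℂ] K₂ →ₗ[ℂ] K₁ := (TensorProduct.rid ℂ K₁).toLinearMap ∘ₗ LinearMap.lTensor K₁ l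
  have h1 := congrArg Λ h0
  rw [map_sum, map_zero] at h1
  have h2 : aeval x (∑ k ∈ Finset.range (P.natDegree + 1), monomial k (l (P.coeff k))) = 0 := by
    rw [map_sum, ← h1]
    refine Finset.sum_congr rfl fun k _ => ?_
    simp [Λ, aeval_monomial, Algebra.smul_def]
  have h3 := congrArg (fun Q : ℂ[X] => Q.coeff m) ((transcendental_iff.1 hx) _ h2)
  simp only [finset_sum_coeff, coeff_monomial, coeff_zero, Finset.sum_ite_eq', Finset.mem_range]
    at h3
  split_ifs at h3 with h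
  · exact h3
  · rw [coeff_eq_zero_of_natDegree_lt (by omega), map_zero]

theorem twisted (μ : K₁ ⊗[ℂ] K₂ →ₐ[ℂ] K) (hμ : Function.Injective μ)
    (hfrac : ∀ z : K, ∃ a b, z = μ a / μ b)
    {f g : ℂ[X]} (hf : Squarefree f) (hg : Squarefree g) (df : 1 ≤ f.natDegree)
    (dg : 1 ≤ g.natDegree) {x y : K₁} {u v : K₂} (hx : Transcendental ℂ x)
    (hu : Transcendental ℂ u) (hy : y ^ 2 = aeval x f) (hv : v ^ 2 = aeval u g)
    (h₁ : ℂ⟮x, y⟯ = ⊤) (h₂ : ℂ⟮u, v⟯ = ⊤) :
    ∃ φ : PlaneField →ₐ[ℂ] K, Module.finrank φ.fieldRange K = 4 ∧ ¬ SqGen φ.fieldRange := by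
  classical
  have : CharZero K := charZero_of_injective_algebraMap (algebraMap ℂ K).injective
  have : CharZero K₂ := charZero_of_injective_algebraMap (algebraMap ℂ K₂).injective
  let i₁ : K₁ →ₐ[ℂ] K := μ.comp Algebra.TensorProduct.includeLeft
  let i₂ : K₂ →ₐ[ℂ] K := μ.comp Algebra.TensorProduct.includeRight
  have hi₁ : ∀ z, i₁ z = μ (z ⊗ₜ 1) := fun z => rfl
  have hi₂ : ∀ z, i₂ z = μ (1 ⊗ₜ z) := fun z => rfl
  letI : Algebra K₂ K := i₂.toRingHom.toAlgebra
  have halg : ∀ z, algebraMap K₂ K z = i₂ z := fun z => rfl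
  have : IsScalarTower ℂ K₂ K := IsScalarTower.of_algebraMap_eq fun c => by
    rw [halg, AlgHom.commutes]
  set X' : K := i₁ x with hX'
  set Y : K := i₁ y with hY
  set U : K := i₂ u with hU
  set V : K := i₂ v with hV
  have tX : Transcendental K₂ X' := transc_over μ hμ halg hx
  have hYsq : Y ^ 2 = aeval X' f := by rw [hY, ← map_pow, hy, hX', aeval_algHom_apply]
  have hVsq : V ^ 2 = aeval U g := by rw [hV, ← map_pow, hv, hU, aeval_algHom_apply]
  have tS : Transcendental K₂ (X' + V) := by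
    intro h
    apply tX
    have := h.sub (isAlgebraic_algebraMap (R := K₂) (A := K) v)
    simpa [halg, hV] using this
  have injS : Function.Injective (aeval (X' + V) : K₂[X] →ₐ[K₂] K) :=
    transcendental_iff_injective.1 tS
  have hvu : v ∉ ℂ⟮u⟯ := y_not_mem hg dg hu hv
  -- polynomials in s and u as polynomials in s over ℂ(u)
  let F := ℂ⟮u⟯
  let lift : MvPolynomial (Fin 2) ℂ →ₐ[ℂ] F[X] :=
    MvPolynomial.aeval ![X, C (IntermediateField.AdjoinSimple.gen ℂ u)]
  let ev : MvPolynomial (Fin 2) ℂ →ₐ[ℂ] K := MvPolynomial.aeval ![X' + V, U]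
  have hev : ∀ p, ev p = aeval (X' + V) ((lift p).map (algebraMap F K₂)) := by
    intro p
    induction p using MvPolynomial.induction_on with
    | C c =>
      simp only [ev, lift, MvPolynomial.algHom_C, Polynomial.algebraMap_apply, map_C, aeval_C]
      rw [← IsScalarTower.algebraMap_apply, ← IsScalarTower.algebraMap_apply]
    | add p q hp hq => simp only [map_add, Polynomial.map_add, hp, hq]
    | mul_X p i hp =>
      simp only [map_mul, Polynomial.map_mul, hp]
      congr 1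
      fin_cases i
      · simp [ev, lift]
      · simp [ev, lift, halg, hU]
  have hlift : Function.Injective lift := by
    have tu : Transcendental ℂ (IntermediateField.AdjoinSimple.gen ℂ u) :=
      transc_of_map (ℂ⟮u⟯.val) hu
    have a1 : AlgebraicIndependent ℂ ![IntermediateField.AdjoinSimple.gen ℂ u] :=
      algebraicIndependent_iff_transcendental.2 tu
    have a2 : AlgebraicIndependent F ![(X : F[X])] :=
      algebraicIndependent_iff_transcendental.2 (Polynomial.transcendental_X F)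
    have a3 := a1.sumElim_comp a2
    have a4 := a3.comp (fun i : Fin 2 => (![Sum.inl 0, Sum.inr 0] i : Fin 1 ⊕ Fin 1))
      (by decide)
    have a5 : AlgebraicIndependent ℂ
        ![(X : F[X]), C (IntermediateField.AdjoinSimple.gen ℂ u)] := by
      convert! a4 using 1
      funext i
      fin_cases i <;> rfl
    exact a5
  have hevinj : Function.Injective ev := by
    intro p q h
    rw [hev, hev] at h
    exact hlift (map_injective _ (algebraMap F K₂).injective (injS h))
  let φ : PlaneField →ₐ[ℂ] K := IsFractionRing.liftAlgHom hevinj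
  have hφ : ∀ p, φ (algebraMap _ PlaneField p) = ev p := fun p =>
    IsFractionRing.lift_algebraMap hevinj p
  set L := φ.fieldRange with hL
  have hLmem : ∀ z ∈ L, ∃ p q, z = ev p / ev q := by
    rintro z ⟨r, rfl⟩
    obtain ⟨p, q, -, rfl⟩ := IsFractionRing.div_surjective (A := MvPolynomial (Fin 2) ℂ) r
    exact ⟨p, q, by
      change φ _ = _
      rw [map_div₀, hφ, hφ]⟩
  have hSL : X' + V ∈ L := ⟨coord 0, by
    change φ _ = _
    rw [coord, hφ]; simp [ev]⟩
  have hUL : U ∈ L := ⟨coord 1, by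
    change φ _ = _
    rw [coord, hφ]; simp [ev]⟩
  have aevalmem : ∀ (S : IntermediateField ℂ K) (z : K), z ∈ S → ∀ p : ℂ[X], aeval z p ∈ S := by
    intro S z hz p
    have : aeval z p ∈ ℂ⟮z⟯ := (IntermediateField.mem_adjoin_simple_iff ℂ _).2 ⟨p, 1, by simp⟩
    exact IntermediateField.adjoin_simple_le_iff.2 hz this
  have hVL : V ∉ L := by
    intro h
    obtain ⟨p, q, hpq⟩ := hLmem V h
    have hV0 : V ≠ 0 := by
      intro h0
      apply hvu
      have : v = 0 := i₂.toRingHom.injective (h0.trans (map_zero i₂).symm)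
      rw [this]; exact zero_mem _
    have hq0 : ev q ≠ 0 := by
      intro h0
      rw [h0, div_zero] at hpq
      exact hV0 hpq
    have h1 : C v * (lift q).map (algebraMap F K₂) = (lift p).map (algebraMap F K₂) := by
      apply injS
      rw [map_mul, aeval_C, ← hev, ← hev, halg, ← hV, hpq]
      field_simp
    have hq1 : lift q ≠ 0 := by
      intro h0
      apply hq0
      rw [hev, h0]; simp
    have h2 := congrArg (fun Q => Q.coeff (lift q).natDegree) h1
    simp only [coeff_C_mul, coeff_map] at h2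
    have h3 : algebraMap F K₂ ((lift q).coeff (lift q).natDegree) ≠ 0 := by
      simpa using hq1
    apply hvu
    have : v = algebraMap F K₂ ((lift p).coeff (lift q).natDegree /
        (lift q).coeff (lift q).natDegree) := by
      rw [map_div₀, ← h2]; field_simp
    rw [this]
    exact ((lift p).coeff (lift q).natDegree / (lift q).coeff (lift q).natDegree).2
  -- the tower
  have hV2 : V ^ 2 ∈ L := hVsq ▸ aevalmem L U hUL g
  obtain ⟨q1, -⟩ := quad (F := L) (a := V) (c := ⟨_, hV2⟩) rfl (by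
    intro h
    obtain ⟨z, hz⟩ := IntermediateField.mem_bot.1 h
    exact hVL (hz ▸ z.2))
  let M : IntermediateField L K := L⟮V⟯
  have hLM : ∀ z ∈ L, z ∈ M := fun z hz => M.algebraMap_mem ⟨z, hz⟩
  have hVM : V ∈ M := IntermediateField.mem_adjoin_simple_self _ _
  have hXM : X' ∈ M := by
    have := M.sub_mem (hLM _ hSL) hVM
    simpa using this
  have hMK : ∀ z ∈ M, z ∈ K₂⟮X'⟯ := by
    have hX2 : X' ∈ K₂⟮X'⟯ := IntermediateField.mem_adjoin_simple_self _ _
    have hV2' : V ∈ K₂⟮X'⟯ := K₂⟮X'⟯.algebraMap_mem v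
    have hLK : ∀ z ∈ L, z ∈ K₂⟮X'⟯ := by
      intro z hz
      obtain ⟨p, q, rfl⟩ := hLmem z hz
      have hh : ∀ p, ev p ∈ K₂⟮X'⟯ := by
        intro p
        rw [hev]
        have : aeval (X' + V) ((lift p).map (algebraMap F K₂)) ∈ K₂⟮X' + V⟯ :=
          (IntermediateField.mem_adjoin_simple_iff K₂ _).2
            ⟨(lift p).map (algebraMap F K₂), 1, by rw [map_one, div_one]⟩
        exact IntermediateField.adjoin_simple_le_iff.2 (K₂⟮X'⟯.add_mem hX2 hV2') this
      exact div_mem (hh p) (hh q)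
    let N : IntermediateField L K := (K₂⟮X'⟯.toSubfield).toIntermediateField
      (fun z => hLK z z.2)
    have : M ≤ N := IntermediateField.adjoin_simple_le_iff.2 hV2'
    exact fun z hz => this hz
  obtain ⟨e, he⟩ := exists_root df
  let f₂ : K₂[X] := f.map (algebraMap ℂ K₂)
  have hf₂ : ∀ z : K, aeval z f₂ = aeval z f := fun z => aeval_map_algebraMap K₂ z f
  have hm1 : f₂.rootMultiplicity (algebraMap ℂ K₂ e) = 1 := by
    rw [← eq_rootMultiplicity_map (algebraMap ℂ K₂).injective, rootMult_one hf he]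
  have hYM : Y ∉ M := fun h => not_sq tX hm1 (hMK Y h) (by rw [hf₂, hYsq])
  have hY2 : Y ^ 2 ∈ M := hYsq ▸ aevalmem (M.restrictScalars ℂ) X' hXM f
  obtain ⟨q2, hrep⟩ := quad (F := M) (a := Y) (c := ⟨_, hY2⟩) rfl (by
    intro h
    obtain ⟨z, hz⟩ := IntermediateField.mem_bot.1 h
    exact hYM (hz ▸ z.2))
  have htop : M⟮Y⟯ = ⊤ := by
    let S : IntermediateField ℂ K := (M⟮Y⟯.restrictScalars L).restrictScalars ℂ
    have hMS : ∀ z ∈ M, z ∈ S := fun z hz => M⟮Y⟯.algebraMap_mem ⟨z, hz⟩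
    have hYS : Y ∈ S := IntermediateField.mem_adjoin_simple_self M Y
    have hS : S = ⊤ := by
      refine top_of_factors μ hfrac S ?_ ?_
      · intro z
        have : ℂ⟮x, y⟯ ≤ S.comap i₁ := by
          rw [IntermediateField.adjoin_le_iff]
          rintro t (rfl | rfl)
          · exact hMS _ hXM
          · exact hYS
        rw [h₁] at this
        exact this trivial
      · intro z
        have : ℂ⟮u, v⟯ ≤ S.comap i₂ := by
          rw [IntermediateField.adjoin_le_iff]
          rintro t (rfl | rfl)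
          · exact hMS _ (hLM _ hUL)
          · exact hMS _ hVM
        rw [h₂] at this
        exact this trivial
    rw [eq_top_iff]
    intro z _
    have hz : z ∈ S := hS ▸ trivial
    exact hz
  refine ⟨φ, ?_, ?_⟩
  · rw [htop, IntermediateField.finrank_top'] at q2
    rw [← Module.finrank_mul_finrank L M K, q1, q2]
  · intro hsq
    obtain ⟨σ, hσ⟩ := hsq.exists_aut hVL
    have hσL : ∀ z ∈ L, σ z = z := fun z hz => σ.commutes ⟨z, hz⟩
    have hσV : σ V = -V := by
      have : σ V ^ 2 = V ^ 2 := by rw [← map_pow, hσL _ hV2]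
      exact (sq_eq_sq_iff_eq_or_eq_neg.1 this).resolve_left hσ
    have hσX : σ X' = X' + 2 * V := by
      have := hσL _ hSL
      rw [map_add, hσV] at this
      linear_combination this
    have hσY : σ Y ^ 2 = aeval (X' + 2 * V) f := by
      rw [← map_pow, hYsq, ← hσX]
      exact (aeval_algHom_apply ((σ.restrictScalars ℂ : K ≃ₐ[ℂ] K) : K →ₐ[ℂ] K) X' f).symm
    let f₃ : K₂[X] := f₂.comp (C 1 * X + C (2 * v))
    have hf₃ : aeval X' f₃ = aeval (X' + 2 * V) f := by
      rw [aeval_comp, hf₂]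
      simp [halg, hV, map_ofNat]
    have hf₃m : ∀ r, f₃.rootMultiplicity r = f₂.rootMultiplicity (1 * r + 2 * v) := fun r =>
      rootMultiplicity_comp_C_mul_X_add_C _ _ _ _ isUnit_one
    obtain ⟨p, q, hpq⟩ := hrep (σ Y) (htop ▸ trivial)
    have hW : σ Y ^ 2 ∈ M := hσY ▸ aevalmem (M.restrictScalars ℂ) _
      (M.add_mem hXM (M.mul_mem (by exact_mod_cast natCast_mem M 2) hVM)) f
    have hpM : algebraMap M K p ∈ M := p.2
    have hqM : algebraMap M K q ∈ M := q.2
    by_cases hp : algebraMap M K p = 0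
    · -- the product f(x) f(x + 2 v) would be a square
      have hm2 : (f₂ * f₃).rootMultiplicity (algebraMap ℂ K₂ e) = 1 := by
        have hf20 : f₂ ≠ 0 := (Polynomial.map_ne_zero_iff (algebraMap ℂ K₂).injective).2 hf.ne_zero
        have hnr : ¬ f₂.IsRoot (1 * algebraMap ℂ K₂ e + 2 * v) := by
          intro hr
          have halgv : IsAlgebraic ℂ (1 * algebraMap ℂ K₂ e + 2 * v) :=
            ⟨f, hf.ne_zero, by
              rw [aeval_def, eval₂_eq_eval_map]; exact hr⟩
          obtain ⟨c, hc⟩ := minpoly.mem_range_of_degree_eq_one ℂ _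
            (IsAlgClosed.degree_eq_one_of_irreducible ℂ (minpoly.irreducible halgv.isIntegral))
          apply hvu
          have : v = algebraMap ℂ K₂ ((c - e) / 2) := by
            rw [map_div₀, map_sub, hc, map_ofNat]; ring
          rw [this]
          exact ℂ⟮u⟯.algebraMap_mem _
        have hf30 : f₃ ≠ 0 := by
          intro h0
          apply hnr
          have := congrArg (eval (algebraMap ℂ K₂ e)) h0
          simpa [f₃, eval_comp] using this
        rw [rootMultiplicity_mul (mul_ne_zero hf20 hf30), hm1, hf₃m,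
          rootMultiplicity_eq_zero hnr]
      refine not_sq tX hm2 (m := algebraMap M K q * Y ^ 2) (hMK _ (M.mul_mem hqM hY2)) ?_
      rw [map_mul, hf₂, hf₃, ← hσY, ← hYsq, hpq, hp]
      ring
    · by_cases hq : algebraMap M K q = 0
      · have hm3 : f₃.rootMultiplicity (algebraMap ℂ K₂ e - 2 * v) = 1 := by
          rw [hf₃m, show 1 * (algebraMap ℂ K₂ e - 2 * v) + 2 * v = algebraMap ℂ K₂ e by ring, hm1]
        refine not_sq tX hm3 (hMK _ hpM) ?_
        rw [hf₃, ← hσY, hpq, hq]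
        ring
      · apply hYM
        have : Y = (σ Y ^ 2 - (algebraMap M K p) ^ 2 - (algebraMap M K q) ^ 2 * Y ^ 2) /
            (2 * algebraMap M K p * algebraMap M K q) := by
          rw [hpq]; field_simp; ring
        rw [this]
        exact M.div_mem (M.sub_mem (M.sub_mem hW (pow_mem hpM 2)) (M.mul_mem (pow_mem hqM 2) hY2))
          (M.mul_mem (M.mul_mem (by exact_mod_cast natCast_mem M 2) hpM) hqM)

end

theorem main (g₁ g₂ : ℕ) (hg₁ : 2 ≤ g₁) (hg₂ : 2 ≤ g₂) (K₁ K₂ : Type) [Field K₁] [Algebra ℂ K₁]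
    [Field K₂] [Algebra ℂ K₂] (h₁ : IsHyperellipticField g₁ K₁) (h₂ : IsHyperellipticField g₂ K₂) :
    ∃ φ : PlaneField →ₐ[ℂ] ProductField K₁ K₂,
      mapDegree φ = gonality K₁ * gonality K₂ ∧
      ∀ ψ : PlaneField →ₐ[ℂ] ProductField K₁ K₂, IsProductMap ψ →
        ¬ BirationallyEquivalent φ ψ := by
  have hdom : IsDomain (K₁ ⊗[ℂ] K₂) := isDomain_tensor
  have n₁ := fun t ht => ne_top_of_hyper hg₁ h₁ (t := t) ht
  have n₂ := fun t ht => ne_top_of_hyper hg₂ h₂ (t := t) ht
  rw [gonality_eq_two hg₁ h₁, gonality_eq_two hg₂ h₂]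
  obtain ⟨f, x, y, hf, df, hx, hy, t₁⟩ := h₁
  obtain ⟨g, u, v, hg, dg, hu, hv, t₂⟩ := h₂
  let μ : K₁ ⊗[ℂ] K₂ →ₐ[ℂ] ProductField K₁ K₂ :=
    IsScalarTower.toAlgHom ℂ (K₁ ⊗[ℂ] K₂) (ProductField K₁ K₂)
  have hμ : Function.Injective μ := IsFractionRing.injective _ _
  have hfrac : ∀ z : ProductField K₁ K₂, ∃ a b, z = μ a / μ b := by
    intro z
    obtain ⟨p, q, -, rfl⟩ := IsFractionRing.div_surjective (A := K₁ ⊗[ℂ] K₂) z
    exact ⟨p, q, rfl⟩
  obtain ⟨φ, hφ, hns⟩ := twisted μ hμ hfrac hf hg (by omega) (by omega) hx hu hy hv t₁ t₂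
  refine ⟨φ, hφ, ?_⟩
  rintro ψ ⟨k₁, k₂, e₁, e₂⟩ ⟨a, b, hab⟩
  apply hns
  let μ' : K₁ ⊗[ℂ] K₂ →ₐ[ℂ] ProductField K₁ K₂ := (a : _ →ₐ[ℂ] _).comp μ
  let ψ' : PlaneField →ₐ[ℂ] ProductField K₁ K₂ := (a : _ →ₐ[ℂ] _).comp ψ
  have hr : ψ'.fieldRange = φ.fieldRange := by
    ext z
    constructor
    · rintro ⟨r, rfl⟩
      exact ⟨b r, hab r⟩
    · rintro ⟨r, rfl⟩
      refine ⟨b.symm r, ?_⟩
      have := hab (b.symm r)
      rw [b.apply_symm_apply] at this
      exact this.symm
  rw [← hr]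
  refine product_sqGen μ' (a.injective.comp hμ) ?_ n₁ n₂ ψ' (h₁ := k₁) (h₂ := k₂) ?_ ?_ ?_
  · intro z
    obtain ⟨p, q, h⟩ := hfrac (a.symm z)
    refine ⟨p, q, ?_⟩
    have := congrArg a h
    rw [a.apply_symm_apply, map_div₀] at this
    exact this
  · exact congrArg a e₁
  · exact congrArg a e₂
  · rw [hr]; exact hφ

end Pool.Agent.H861Z.Prod
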