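import Pool.Agent.H861Z.Prod.Gon

set_option autoImplicit false

open scoped TensorProduct IntermediateField Polynomial
open Polynomial

namespace Pool.Agent.H861Z.Prod

/-- `K` is generated over `L` by two square roots. -/
def SqGen {K : Type} [Field K] [Algebra ℂ K] (L : IntermediateField ℂ K) : Prop :=
  ∃ a b : K, a ^ 2 ∈ L ∧ b ^ 2 ∈ L ∧
    ∀ S : IntermediateField ℂ K, L ≤ S → a ∈ S → b ∈ S → S = ⊤

lemma SqGen.exists_aut {K : Type} [Field K] [Algebra ℂ K] {L : IntermediateField ℂ K}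
    (h : SqGen L) {v : K} (hv : v ∉ L) : ∃ σ : K ≃ₐ[L] K, σ v ≠ v := by
  classical
  obtain ⟨a, b, ha, hb, hS⟩ := h
  have : CharZero K := charZero_of_injective_algebraMap (algebraMap ℂ K).injective
  let p : L[X] := (X ^ 2 - C ⟨a ^ 2, ha⟩) * (X ^ 2 - C ⟨b ^ 2, hb⟩)
  have hp0 : p ≠ 0 := mul_ne_zero (monic_X_pow_sub_C _ (by norm_num)).ne_zero
    (monic_X_pow_sub_C _ (by norm_num)).ne_zero
  have hmap : p.map (algebraMap L K) =
      (X - C a) * (X - C (-a)) * ((X - C b) * (X - C (-b))) := by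
    simp only [p, Polynomial.map_mul, Polynomial.map_sub, Polynomial.map_pow, map_X, map_C, map_neg]
    have e1 : algebraMap L K ⟨a ^ 2, ha⟩ = a ^ 2 := rfl
    have e2 : algebraMap L K ⟨b ^ 2, hb⟩ = b ^ 2 := rfl
    rw [e1, e2, map_pow, map_pow]
    ring
  have hroot : ∀ z : K, z = a ∨ z = b → z ∈ p.rootSet K := by
    intro z hz
    rw [mem_rootSet]
    refine ⟨hp0, ?_⟩
    rw [aeval_def, eval₂_eq_eval_map, hmap]
    rcases hz with rfl | rfl <;> simp
  have hint : ∀ z ∈ p.rootSet K, IsAlgebraic L z := fun z hz =>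
    ⟨p, hp0, (mem_rootSet.1 hz).2⟩
  have : p.IsSplittingField L K := by
    constructor
    · rw [hmap]
      exact ((Splits.X_sub_C _).mul (Splits.X_sub_C _)).mul
        ((Splits.X_sub_C _).mul (Splits.X_sub_C _))
    · rw [← IntermediateField.adjoin_toSubalgebra_of_isAlgebraic hint]
      have := hS ((IntermediateField.adjoin L (p.rootSet K)).restrictScalars ℂ)
        (fun z hz => (IntermediateField.adjoin L (p.rootSet K)).algebraMap_mem ⟨z, hz⟩)
        (IntermediateField.subset_adjoin L _ (hroot a (Or.inl rfl)))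
        (IntermediateField.subset_adjoin L _ (hroot b (Or.inr rfl)))
      rw [eq_top_iff]
      intro z _
      have hz : z ∈ (⊤ : IntermediateField ℂ K) := trivial
      rw [← this] at hz
      exact hz
  have : FiniteDimensional L K := IsSplittingField.finiteDimensional K p
  have : Normal L K := Normal.of_isSplittingField p
  have : IsGalois L K := {}
  by_contra hcon
  push Not at hcon
  obtain ⟨z, hz⟩ := IntermediateField.mem_bot.1 ((IsGalois.mem_bot_iff_fixed v).2 hcon)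
  exact hv (hz ▸ z.2)

lemma span_two {F K : Type} [Field F] [Field K] [Algebra F K]
    (H : ∀ fam : Fin 3 → K, ¬ LinearIndependent F fam) {w : K}
    (hw : w ∉ Set.range (algebraMap F K)) (z : K) :
    ∃ p q : F, z = algebraMap F K p + algebraMap F K q * w := by
  have h := H ![1, w, z]
  rw [Fintype.linearIndependent_iff] at h
  push Not at h
  obtain ⟨g, hg, i, hi⟩ := h
  simp only [Fin.sum_univ_three, Matrix.cons_val_zero, Matrix.cons_val_one, Matrix.cons_val,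
    Algebra.smul_def, mul_one] at hg
  by_cases h2 : g 2 = 0
  · exfalso
    rw [h2, map_zero, zero_mul, add_zero] at hg
    by_cases h1 : g 1 = 0
    · rw [h1, map_zero, zero_mul, add_zero, map_eq_zero] at hg
      fin_cases i <;> simp_all
    · apply hw
      refine ⟨-(g 0) / g 1, ?_⟩
      have : algebraMap F K (g 1) ≠ 0 := by simpa using h1
      rw [map_div₀, map_neg, div_eq_iff this]
      linear_combination -hg
  · have : algebraMap F K (g 2) ≠ 0 := by simpa using h2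
    refine ⟨-(g 0) / g 2, -(g 1) / g 2, ?_⟩
    rw [map_div₀, map_div₀, map_neg, map_neg]
    field_simp
    linear_combination hg

lemma exists_sqrt_gen {F K : Type} [Field F] [Field K] [Algebra F K] [CharZero K]
    (H : ∀ fam : Fin 3 → K, ¬ LinearIndependent F fam) {w : K}
    (hw : w ∉ Set.range (algebraMap F K)) :
    ∃ (a : K) (c : F), a ^ 2 = algebraMap F K c ∧
      ∀ z, ∃ p q : F, z = algebraMap F K p + algebraMap F K q * a := by
  obtain ⟨p, q, hpq⟩ := span_two H hw (w ^ 2)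
  refine ⟨2 * w - algebraMap F K q, 4 * p + q ^ 2, ?_, ?_⟩
  · rw [map_add, map_mul, map_pow, map_ofNat]
    linear_combination 4 * hpq
  · apply span_two H
    rintro ⟨c, hc⟩
    apply hw
    refine ⟨(c + q) / 2, ?_⟩
    rw [map_div₀, map_add, hc, map_ofNat]
    ring

lemma pair_indep {F K : Type} [Field F] [Field K] [Algebra F K] {w : K}
    (hw : w ∉ Set.range (algebraMap F K)) : LinearIndependent F ![1, w] := by
  rw [LinearIndependent.pair_iff]
  intro s t h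
  simp only [Algebra.smul_def, mul_one] at h
  by_cases ht : t = 0
  · rw [ht, map_zero, zero_mul, add_zero, map_eq_zero] at h
    exact ⟨h, ht⟩
  · exfalso
    apply hw
    refine ⟨-s / t, ?_⟩
    have : algebraMap F K t ≠ 0 := by simpa using ht
    rw [map_div₀, map_neg, div_eq_iff this]
    linear_combination -h

lemma pow_indep {F K : Type} [Field F] [Field K] [Algebra F K] {h : K}
    (hh : Transcendental F h) :
    LinearIndependent F (fun m : ℕ => (IntermediateField.AdjoinSimple.gen F h) ^ m) := by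
  apply LinearIndependent.of_comp (F⟮h⟯.val.toLinearMap)
  have h1 := (basisMonomials F).linearIndependent.map' (aeval h : F[X] →ₐ[F] K).toLinearMap
    (LinearMap.ker_eq_bot.2 (transcendental_iff_injective.1 hh))
  convert! h1 using 1
  funext m
  simp [coe_basisMonomials, aeval_monomial]

section

variable {K₁ K₂ K : Type} [Field K₁] [Algebra ℂ K₁] [Field K₂] [Algebra ℂ K₂]
  [Field K] [Algebra ℂ K]

lemma top_of_factors (μ : K₁ ⊗[ℂ] K₂ →ₐ[ℂ] K) (hfrac : ∀ z : K, ∃ a b, z = μ a / μ b)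
    (S : IntermediateField ℂ K) (h1 : ∀ a : K₁, μ (a ⊗ₜ 1) ∈ S) (h2 : ∀ b : K₂, μ (1 ⊗ₜ b) ∈ S) :
    S = ⊤ := by
  have h : ∀ z, μ z ∈ S := by
    intro z
    induction z using TensorProduct.induction_on with
    | zero => simp
    | tmul a b =>
      have : a ⊗ₜ[ℂ] b = (a ⊗ₜ[ℂ] (1 : K₂)) * ((1 : K₁) ⊗ₜ[ℂ] b) := by simp
      rw [this, map_mul]
      exact S.mul_mem (h1 a) (h2 b)
    | add z z' hz hz' => rw [map_add]; exact S.add_mem hz hz'
  rw [eq_top_iff]
  intro z _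
  obtain ⟨a, b, rfl⟩ := hfrac z
  exact S.div_mem (h a) (h b)

lemma transc_coord (i : Fin 2) : Transcendental ℂ (coord i) :=
  (transcendental_algebraMap_iff (IsFractionRing.injective _ _)).2
    (MvPolynomial.transcendental_X ℂ i)

lemma transc_of_map {A B : Type} [CommRing A] [CommRing B] [Algebra ℂ A] [Algebra ℂ B]
    (φ : A →ₐ[ℂ] B) {a : A} (h : Transcendental ℂ (φ a)) : Transcendental ℂ a :=
  fun ha => h (ha.algHom φ)

lemma transc_map {A B : Type} [Field A] [Field B] [Algebra ℂ A] [Algebra ℂ B]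
    (φ : A →ₐ[ℂ] B) {a : A} (h : Transcendental ℂ a) : Transcendental ℂ (φ a) :=
  fun ha => h ((isAlgebraic_algHom_iff φ φ.toRingHom.injective).1 ha)

lemma psi_poly (μ : K₁ ⊗[ℂ] K₂ →ₐ[ℂ] K) (ψ : PlaneField →ₐ[ℂ] K) (t : Fin 2 → K₁ ⊗[ℂ] K₂)
    (h : ∀ i, ψ (coord i) = μ (t i)) (p : MvPolynomial (Fin 2) ℂ) :
    ψ (algebraMap _ PlaneField p) = μ (MvPolynomial.aeval t p) := by
  have : ψ.comp (IsScalarTower.toAlgHom ℂ (MvPolynomial (Fin 2) ℂ) PlaneField) =
      μ.comp (MvPolynomial.aeval t) := by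
    apply MvPolynomial.algHom_ext
    intro i
    simpa [coord] using h i
  exact congrArg (fun f : MvPolynomial (Fin 2) ℂ →ₐ[ℂ] K => f p) this

lemma linind_product (μ : K₁ ⊗[ℂ] K₂ →ₐ[ℂ] K) (hμ : Function.Injective μ)
    (ψ : PlaneField →ₐ[ℂ] K) {h₁ : K₁} {h₂ : K₂} (e₁ : ψ (coord 0) = μ (h₁ ⊗ₜ 1))
    (e₂ : ψ (coord 1) = μ (1 ⊗ₜ h₂)) (t₁ : Transcendental ℂ h₁) (t₂ : Transcendental ℂ h₂)
    {ι κ : Type} [Fintype ι] [Fintype κ] {a : ι → K₁} {b : κ → K₂}
    (ha : LinearIndependent ℂ⟮h₁⟯ a) (hb : LinearIndependent ℂ⟮h₂⟯ b) :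
    LinearIndependent ψ.fieldRange (fun k : ι × κ => μ (a k.1 ⊗ₜ b k.2)) := by
  classical
  let t : Fin 2 → K₁ ⊗[ℂ] K₂ := ![h₁ ⊗ₜ 1, 1 ⊗ₜ h₂]
  have ht : ∀ i, ψ (coord i) = μ (t i) := by
    intro i; fin_cases i
    · exact e₁
    · exact e₂
  have A1 := linearIndependent_smul (pow_indep t₁) ha
  have A2 := linearIndependent_smul (pow_indep t₂) hb
  have A3 := A1.tmul_of_isDomain A2
  let Φ : (ι × κ → MvPolynomial (Fin 2) ℂ) →ₗ[ℂ] K₁ ⊗[ℂ] K₂ :=
    ∑ k : ι × κ, (LinearMap.mulRight ℂ (a k.1 ⊗ₜ[ℂ] b k.2)) ∘ₗ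
      (MvPolynomial.aeval t : MvPolynomial (Fin 2) ℂ →ₐ[ℂ] _).toLinearMap ∘ₗ LinearMap.proj k
  have hΦ : ∀ p, Φ p = ∑ k : ι × κ, MvPolynomial.aeval t (p k) * (a k.1 ⊗ₜ[ℂ] b k.2) := by
    intro p
    simp [Φ, LinearMap.sum_apply]
  let B := Pi.basis (fun _ : ι × κ => MvPolynomial.basisMonomials (Fin 2) ℂ)
  have hinj : Function.Injective Φ := by
    refine LinearMap.injective_of_linearIndependent B.span_eq ?_
    have A4 := A3.comp (fun s : (Σ _ : ι × κ, Fin 2 →₀ ℕ) => ((s.2 0, s.1.1), (s.2 1, s.1.2)))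
      (by
        rintro ⟨⟨i, j⟩, d⟩ ⟨⟨i', j'⟩, d'⟩ h
        simp only [Prod.mk.injEq] at h
        obtain ⟨⟨h1, rfl⟩, h2, rfl⟩ := h
        have : d = d' := by
          ext m; fin_cases m
          · exact h1
          · exact h2
        rw [this])
    convert! A4 using 1
    funext s
    obtain ⟨k, d⟩ := s
    simp only [Function.comp, hΦ, B, Pi.basis_apply]
    rw [Finset.sum_eq_single k]
    · simp only [Pi.single_eq_same, MvPolynomial.coe_basisMonomials, MvPolynomial.aeval_monomial,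
        map_one, one_mul]
      rw [Finsupp.prod_fintype _ _ (by simp), Fin.prod_univ_two]
      simp [t, Algebra.TensorProduct.tmul_pow, IntermediateField.smul_def]
    · intro k' _ hk'
      simp [Pi.single_eq_of_ne hk']
    · simp
  rw [Fintype.linearIndependent_iff]
  intro g hg
  have hr : ∀ k, ∃ r : PlaneField, ψ r = (g k : K) := fun k => (g k).2
  choose r hr using hr
  obtain ⟨q, hq⟩ := IsLocalization.exist_integer_multiples_of_finite
    (nonZeroDivisors (MvPolynomial (Fin 2) ℂ)) r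
  choose p hp using hq
  have h0 : Φ p = 0 := by
    apply hμ
    rw [hΦ, map_sum, map_zero]
    have : ∀ k, μ (MvPolynomial.aeval t (p k) * (a k.1 ⊗ₜ[ℂ] b k.2)) =
        ψ (algebraMap _ PlaneField (q : MvPolynomial (Fin 2) ℂ)) * (g k • μ (a k.1 ⊗ₜ b k.2)) := by
      intro k
      rw [map_mul, ← psi_poly μ ψ t ht, hp k, Algebra.smul_def, map_mul, hr,
        IntermediateField.smul_def, smul_eq_mul, mul_assoc]
    rw [Finset.sum_congr rfl (fun k _ => this k), ← Finset.mul_sum, hg, mul_zero]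
  have hp0 : p = 0 := hinj (by rw [h0, map_zero])
  intro k
  have h1 := hp k
  rw [hp0, Pi.zero_apply, map_zero, Algebra.smul_def] at h1
  have hq0 : algebraMap _ PlaneField (q : MvPolynomial (Fin 2) ℂ) ≠ 0 :=
    IsFractionRing.to_map_ne_zero_of_mem_nonZeroDivisors q.2
  have h2 : r k = 0 := (mul_eq_zero.1 h1.symm).resolve_left hq0
  apply Subtype.ext
  rw [← hr, h2, map_zero]
  rfl

theorem product_sqGen (μ : K₁ ⊗[ℂ] K₂ →ₐ[ℂ] K) (hμ : Function.Injective μ)
    (hfrac : ∀ z : K, ∃ a b, z = μ a / μ b)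
    (n₁ : ∀ t : K₁, Transcendental ℂ t → ℂ⟮t⟯ ≠ ⊤) (n₂ : ∀ t : K₂, Transcendental ℂ t → ℂ⟮t⟯ ≠ ⊤)
    (ψ : PlaneField →ₐ[ℂ] K) {h₁ : K₁} {h₂ : K₂} (e₁ : ψ (coord 0) = μ (h₁ ⊗ₜ 1))
    (e₂ : ψ (coord 1) = μ (1 ⊗ₜ h₂)) (hdeg : Module.finrank ψ.fieldRange K = 4) :
    SqGen ψ.fieldRange := by
  have : CharZero K₁ := charZero_of_injective_algebraMap (algebraMap ℂ K₁).injective
  have : CharZero K₂ := charZero_of_injective_algebraMap (algebraMap ℂ K₂).injective
  let i₁ : K₁ →ₐ[ℂ] K := μ.comp Algebra.TensorProduct.includeLeft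
  let i₂ : K₂ →ₐ[ℂ] K := μ.comp Algebra.TensorProduct.includeRight
  have hi₁ : ∀ z, i₁ z = μ (z ⊗ₜ 1) := fun z => rfl
  have hi₂ : ∀ z, i₂ z = μ (1 ⊗ₜ z) := fun z => rfl
  have t₁ : Transcendental ℂ h₁ :=
    transc_of_map i₁ (by rw [hi₁, ← e₁]; exact transc_map ψ (transc_coord 0))
  have t₂ : Transcendental ℂ h₂ :=
    transc_of_map i₂ (by rw [hi₂, ← e₂]; exact transc_map ψ (transc_coord 1))
  have : FiniteDimensional ψ.fieldRange K := Module.finite_of_finrank_pos (by omega)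
  obtain ⟨w₁, hw₁⟩ : ∃ w : K₁, w ∉ Set.range (algebraMap ℂ⟮h₁⟯ K₁) := by
    by_contra hcon
    push Not at hcon
    apply n₁ h₁ t₁
    rw [eq_top_iff]
    intro z _
    obtain ⟨z', rfl⟩ := hcon z
    exact z'.2
  obtain ⟨w₂, hw₂⟩ : ∃ w : K₂, w ∉ Set.range (algebraMap ℂ⟮h₂⟯ K₂) := by
    by_contra hcon
    push Not at hcon
    apply n₂ h₂ t₂
    rw [eq_top_iff]
    intro z _
    obtain ⟨z', rfl⟩ := hcon z
    exact z'.2
  have H₁ : ∀ fam : Fin 3 → K₁, ¬ LinearIndependent ℂ⟮h₁⟯ fam := by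
    intro fam hfam
    have := (linind_product μ hμ ψ e₁ e₂ t₁ t₂ hfam (pair_indep hw₂)).fintype_card_le_finrank
    rw [hdeg] at this
    simp at this
  have H₂ : ∀ fam : Fin 3 → K₂, ¬ LinearIndependent ℂ⟮h₂⟯ fam := by
    intro fam hfam
    have := (linind_product μ hμ ψ e₁ e₂ t₁ t₂ (pair_indep hw₁) hfam).fintype_card_le_finrank
    rw [hdeg] at this
    simp at this
  obtain ⟨a, c, hac, ha⟩ := exists_sqrt_gen H₁ hw₁
  obtain ⟨b, d, hbd, hb⟩ := exists_sqrt_gen H₂ hw₂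
  have m₁ : ∀ z : ℂ⟮h₁⟯, i₁ (algebraMap _ K₁ z) ∈ ψ.fieldRange := by
    intro z
    have : ℂ⟮h₁⟯ ≤ ψ.fieldRange.comap i₁ :=
      IntermediateField.adjoin_simple_le_iff.2 ⟨coord 0, e₁⟩
    exact this z.2
  have m₂ : ∀ z : ℂ⟮h₂⟯, i₂ (algebraMap _ K₂ z) ∈ ψ.fieldRange := by
    intro z
    have : ℂ⟮h₂⟯ ≤ ψ.fieldRange.comap i₂ :=
      IntermediateField.adjoin_simple_le_iff.2 ⟨coord 1, e₂⟩
    exact this z.2
  refine ⟨i₁ a, i₂ b, ?_, ?_, fun S hS haS hbS => top_of_factors μ hfrac S ?_ ?_⟩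
  · rw [← map_pow, hac]; exact m₁ c
  · rw [← map_pow, hbd]; exact m₂ d
  · intro z
    obtain ⟨p, q, rfl⟩ := ha z
    rw [← hi₁, map_add, map_mul]
    exact S.add_mem (hS (m₁ p)) (S.mul_mem (hS (m₁ q)) haS)
  · intro z
    obtain ⟨p, q, rfl⟩ := hb z
    rw [← hi₂, map_add, map_mul]
    exact S.add_mem (hS (m₂ p)) (S.mul_mem (hS (m₂ q)) hbS)

end

end Pool.Agent.H861Z.Prod
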